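import Pool.Agent.R974.AT.Defs

/-!
# OSCL: at a fixed time a Brownian path oscillates around its value, before that time
-/

set_option autoImplicit false

open MeasureTheory ProbabilityTheory Filter Topology Set
open scoped ENNReal NNReal

universe u

namespace R974.AT.OSCL46

open Pool.Agent.R974.Span (GBM)

variable {Ω : Type u} [MeasurableSpace Ω] {P : Measure Ω} {B : ℝ≥0 → Ω → ℝ}

/-- the reversed process -/
noncomputable def rev (B : ℝ≥0 → Ω → ℝ) (u : ℝ≥0) (ω : Ω) : ℝ := B (1 - u) ω - B 1 ω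

theorem rev_gauss (hB : GBM B P) : IsGaussianProcess (rev B) P := by
  classical
  exact hB.pre.isGaussianProcess.of_isGaussianProcess fun t ↦ ⟨{1, 1 - t},
    { toFun x := x ⟨1 - t, by simp⟩ - x ⟨1, by simp⟩
      map_add' x y := by simp; abel
      map_smul' c x := by simp; ring },
    by intro ω; simp [rev]⟩

theorem rev_cov (hB : GBM B P) (s t : ℝ≥0) (hst : s ≤ t) (ht : t ≤ 1) :
    cov[rev B s, rev B t; P] = s := by
  have := hB.prob
  have hm : ∀ r, MemLp (B r) 2 P := fun r =>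
    (hB.pre.isGaussianProcess.hasGaussianLaw_eval r).memLp_two
  have h1 : rev B s = B (1 - s) - B 1 := rfl
  have h2 : rev B t = B (1 - t) - B 1 := rfl
  rw [h1, h2, covariance_sub_left (hm _) (hm _) ((hm _).sub (hm _)),
    covariance_sub_right (hm _) (hm _) (hm _), covariance_sub_right (hm _) (hm _) (hm _),
    hB.pre.covariance_eval, hB.pre.covariance_eval, hB.pre.covariance_eval,
    hB.pre.covariance_eval]
  have e1 : min (1 - s) (1 - t) = 1 - t := min_eq_right (tsub_le_tsub_left hst 1)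
  have e2 : min (1 - s) 1 = 1 - s := min_eq_left tsub_le_self
  have e3 : min 1 (1 - t) = 1 - t := min_eq_right tsub_le_self
  rw [e1, e2, e3, min_self, NNReal.coe_sub ht, NNReal.coe_sub (hst.trans ht)]
  push_cast
  ring

theorem half (h : S_REFL.{u}) (hB : GBM B P) : ∀ᵐ ω ∂P, ∀ ε : ℝ≥0, 0 < ε →
    ∃ u : ℝ≥0, 1 - ε < u ∧ u < 1 ∧ B u ω < B 1 ω := by
  have := hB.prob
  have h1 : ∀ n : ℕ, ∀ᵐ ω ∂P, ¬ (∀ u : ℝ≥0, u ≤ 1 / (n + 2) → 0 ≤ rev B u ω) := by
    intro n
    have hc : (0 : ℝ≥0) < 1 / (n + 2) := by positivity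
    have hc1 : (1 : ℝ≥0) / (n + 2) ≤ 1 := by
      rw [div_le_one (by positivity)]
      have : (0 : ℝ≥0) ≤ n := zero_le
      calc (1 : ℝ≥0) ≤ 2 := by norm_num
        _ ≤ n + 2 := le_add_self
    have h2 := h P (rev B) (1 / (n + 2)) 1 hc one_pos ((rev_gauss hB).restrict _)
      (fun t _ => (hB.meas _).sub (hB.meas _)) (fun ω => by simp [rev])
      (fun ω => by
        have h3 := hB.cont ω
        refine Continuous.continuousOn ?_
        have h4 : Continuous (fun u : ℝ≥0 => B (1 - u) ω) :=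
          h3.comp (continuous_const.sub continuous_id)
        exact h4.sub continuous_const)
      (fun t _ => by
        have h3 : ∫ ω, rev B t ω ∂P = (∫ ω, B (1 - t) ω ∂P) - ∫ ω, B 1 ω ∂P :=
          integral_sub (hB.pre.integrable_eval _) (hB.pre.integrable_eval _)
        rw [h3, hB.pre.integral_eval, hB.pre.integral_eval, sub_zero])
      (fun s t hst ht => by rw [rev_cov hB s t hst (ht.trans hc1), one_mul]) 0 le_rfl
    simp only [neg_zero, zero_div, ENNReal.ofReal_zero, nonpos_iff_eq_zero] at h2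
    rw [ae_iff]
    simpa only [not_not] using h2
  filter_upwards [ae_all_iff.2 h1] with ω hω
  intro ε hε
  obtain ⟨n, hn⟩ := exists_nat_gt ((ε : ℝ)⁻¹)
  have hn2 : (1 : ℝ≥0) / (n + 2) < ε := by
    rw [← NNReal.coe_lt_coe]
    push_cast
    have hε' : (0 : ℝ) < ε := by exact_mod_cast hε
    rw [div_lt_iff₀ (by positivity)]
    rw [inv_lt_iff_one_lt_mul₀ hε'] at hn
    nlinarith
  have h2 := hω n
  push Not at h2
  obtain ⟨u, hu1, hu2⟩ := h2
  have hu0 : 0 < u := by
    rcases eq_or_lt_of_le (zero_le : 0 ≤ u) with h3 | h3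
    · exfalso
      rw [← h3] at hu2
      simp [rev] at hu2
    · exact h3
  have hu12 : u < 1 := by
    refine lt_of_le_of_lt hu1 ?_
    rw [div_lt_one (by positivity)]
    calc (1 : ℝ≥0) < 2 := by norm_num
      _ ≤ n + 2 := le_add_self
  refine ⟨1 - u, ?_, tsub_lt_self one_pos hu0, ?_⟩
  · rcases le_or_gt ε 1 with h3 | h3
    · exact tsub_lt_tsub_left_of_le h3 (lt_of_le_of_lt hu1 hn2)
    · rw [tsub_eq_zero_of_le h3.le]
      exact tsub_pos_of_lt hu12
  · unfold rev at hu2
    linarith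

/-- OSCL -/
theorem oscl (h : S_REFL.{u}) : S_OSCL.{u} := by
  intro Ω _ P B hB
  filter_upwards [half h hB, half h hB.neg] with ω h1 h2
  intro ε hε
  refine ⟨h1 ε hε, ?_⟩
  obtain ⟨u, hu1, hu2, hu3⟩ := h2 ε hε
  refine ⟨u, hu1, hu2, ?_⟩
  simp only [Pi.neg_apply] at hu3
  linarith

end R974.AT.OSCL46
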