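import Mathlib

/-! Certificates for graph distances. -/

namespace Pool.Agent.R46

open SimpleGraph

theorem le_of_walk {V : Type*} {G : SimpleGraph V} {d : V → ℕ}
    (hl : ∀ v w, G.Adj v w → d w ≤ d v + 1) {v w : V} (p : G.Walk v w) :
    d w ≤ d v + p.length := by
  induction p with
  | nil => simp
  | cons h p ih =>
    have := hl _ _ h
    simp only [Walk.length_cons]
    omega

theorem exists_walk_of {V : Type*} {G : SimpleGraph V} {u : V} {d : V → ℕ}
    (h0 : ∀ v, d v = 0 → v = u)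
    (hw : ∀ v, d v ≠ 0 → ∃ w, G.Adj w v ∧ d w + 1 = d v) :
    ∀ (n : ℕ) (v : V), d v = n → ∃ p : G.Walk u v, p.length = n := by
  intro n
  induction n with
  | zero =>
    intro v hv
    obtain rfl := h0 v hv
    exact ⟨Walk.nil, rfl⟩
  | succ n ih =>
    intro v hv
    obtain ⟨w, hwv, hd⟩ := hw v (by omega)
    obtain ⟨p, hp⟩ := ih w (by omega)
    exact ⟨p.concat hwv, by rw [Walk.length_concat, hp]⟩

/-- A certificate for the distances from a vertex. -/
theorem dist_eq_of {V : Type*} {G : SimpleGraph V} {u : V} {d : V → ℕ} (hu : d u = 0)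
    (h0 : ∀ v, d v = 0 → v = u)
    (hl : ∀ v w, G.Adj v w → d w ≤ d v + 1)
    (hw : ∀ v, d v ≠ 0 → ∃ w, G.Adj w v ∧ d w + 1 = d v) (v : V) : G.dist u v = d v := by
  obtain ⟨p, hp⟩ := exists_walk_of h0 hw (d v) v rfl
  apply le_antisymm
  · exact hp ▸ SimpleGraph.dist_le p
  · obtain ⟨q, hq⟩ := (Walk.reachable p).exists_walk_length_eq_dist
    have := le_of_walk hl q
    omega

theorem connected_of {V : Type*} {G : SimpleGraph V} {u : V} {d : V → ℕ}
    (h0 : ∀ v, d v = 0 → v = u)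
    (hw : ∀ v, d v ≠ 0 → ∃ w, G.Adj w v ∧ d w + 1 = d v) : G.Connected := by
  haveI : Nonempty V := ⟨u⟩
  have h : ∀ v, G.Reachable u v := fun v => by
    obtain ⟨p, -⟩ := exists_walk_of h0 hw (d v) v rfl
    exact p.reachable
  exact ⟨fun v w => (h v).symm.trans (h w)⟩

end Pool.Agent.R46
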