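import Mathlib
import Pool.Agent.R46.Dist

/-! Facts on shortest walks. -/

namespace Pool.Agent.R46

open SimpleGraph

variable {V : Type*} {G : SimpleGraph V}

theorem geo_getVert {a b : V} {w : G.Walk a b} (hw : w.length = G.dist a b) {n : ℕ}
    (hn : n ≤ w.length) : G.dist a (w.getVert n) = n ∧ G.dist (w.getVert n) b = w.length - n := by
  have h1 : G.dist a (w.getVert n) ≤ n := by
    have := SimpleGraph.dist_le (w.take n)
    rw [Walk.take_length] at this
    omega
  have h2 : G.dist (w.getVert n) b ≤ w.length - n := by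
    have := SimpleGraph.dist_le (w.drop n)
    rwa [Walk.drop_length] at this
  have h3 : G.dist a b ≤ G.dist a (w.getVert n) + G.dist (w.getVert n) b :=
    (w.take n).reachable.dist_triangle_left b
  omega

theorem geo_mem {a b v : V} {w : G.Walk a b} (hw : w.length = G.dist a b)
    (hv : v ∈ w.support) : v = w.getVert (G.dist a v) ∧ G.dist a v ≤ w.length := by
  obtain ⟨n, hn, hn'⟩ := Walk.mem_support_iff_exists_getVert.1 hv
  obtain ⟨h1, -⟩ := geo_getVert hw hn'
  rw [hn] at h1
  rw [h1]
  exact ⟨hn.symm, hn'⟩

theorem geo_unique {a b v v' : V} {w : G.Walk a b} (hw : w.length = G.dist a b)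
    (hv : v ∈ w.support) (hv' : v' ∈ w.support) (h : G.dist a v = G.dist a v') : v = v' := by
  rw [(geo_mem hw hv).1, (geo_mem hw hv').1, h]

theorem geo_between {a b v : V} {w : G.Walk a b} (hw : w.length = G.dist a b)
    (hv : v ∈ w.support) : G.dist a v + G.dist v b = G.dist a b := by
  obtain ⟨n, hn, hn'⟩ := Walk.mem_support_iff_exists_getVert.1 hv
  obtain ⟨h1, h2⟩ := geo_getVert hw hn'
  rw [hn] at h1 h2
  omega

theorem dist_boxProd {W : Type*} {H : SimpleGraph W} (hG : G.Connected) (hH : H.Connected)
    (x y : V × W) : (G □ H).dist x y = G.dist x.1 y.1 + H.dist x.2 y.2 := by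
  have h := edist_boxProd (G := G) (H := H) x y
  have hGH := hG.boxProd hH
  rw [← (hGH x y).coe_dist_eq_edist, ← (hG x.1 y.1).coe_dist_eq_edist,
    ← (hH x.2 y.2).coe_dist_eq_edist] at h
  exact_mod_cast h

/-- A list of successively adjacent vertices is the support of a walk. -/
theorem walk_of_list (l : List V) : ∀ (a b : V), List.IsChain G.Adj l → l.head? = some a →
    l.getLast? = some b → ∃ w : G.Walk a b, w.support = l := by
  induction l with
  | nil => intro a b _ h; simp at h
  | cons x l ih =>
    intro a b hc ha hb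
    simp only [List.head?_cons, Option.some.injEq] at ha
    subst ha
    cases l with
    | nil =>
      simp only [List.getLast?_singleton, Option.some.injEq] at hb
      subst hb
      exact ⟨Walk.nil, by simp⟩
    | cons y l =>
      rw [List.isChain_cons_cons] at hc
      obtain ⟨w, hw⟩ := ih y b hc.2 rfl (by rwa [List.getLast?_cons_cons] at hb)
      exact ⟨Walk.cons hc.1 w, by simp [hw]⟩

end Pool.Agent.R46
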