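import Pool.Agent.R237.LZ.Stm

/-!
# LZ-STRIP: the residue identity in a strip
-/

set_option autoImplicit false

open MeasureTheory Filter Topology Set

namespace Pool.Agent.R46.LZ

theorem int_exp_abs {a : ℝ} (ha : a < 0) : Integrable fun y : ℝ => Real.exp (a * |y|) := by
  rw [← integrableOn_univ, ← Iic_union_Ioi (a := (0:ℝ)), integrableOn_union]
  constructor
  · refine (integrableOn_exp_mul_Iic (a := -a) (by linarith) 0).congr_fun (fun y hy => ?_)
      measurableSet_Iic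
    have hy' : y ≤ 0 := hy
    show Real.exp (-a * y) = Real.exp (a * |y|)
    rw [abs_of_nonpos hy']
    congr 1
    ring
  · refine (integrableOn_exp_mul_Ioi ha 0).congr_fun (fun y hy => ?_) measurableSet_Ioi
    have hy' : 0 < y := hy
    show Real.exp (a * y) = Real.exp (a * |y|)
    rw [abs_of_pos hy']

theorem cosh_ge (y : ℝ) : Real.exp |y| / 2 ≤ Real.cosh y := by
  rw [← Real.cosh_abs, Real.cosh_eq]
  have := Real.exp_pos (-|y|)
  linarith

theorem int_div (g : ℝ → ℂ) (hg : Continuous g) (C θ : ℝ) (hC : 0 ≤ C) (hθ : θ < 1)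
    (hb : ∀ y, ‖g y‖ ≤ C * Real.exp (θ * Real.pi * |y|)) :
    Integrable fun y : ℝ => g y / (Real.cosh (Real.pi * y) : ℂ) := by
  have hπ := Real.pi_pos
  have ha : (θ - 1) * Real.pi < 0 := mul_neg_of_neg_of_pos (by linarith) hπ
  refine Integrable.mono' ((int_exp_abs ha).const_mul (2 * C)) ?_ (Eventually.of_forall fun y => ?_)
  · apply Continuous.aestronglyMeasurable
    apply hg.div
    · exact Complex.continuous_ofReal.comp (Real.continuous_cosh.comp (continuous_const.mul continuous_id))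
    · intro y
      exact_mod_cast (Real.cosh_pos _).ne'
  · rw [norm_div, Complex.norm_real, Real.norm_eq_abs, abs_of_pos (Real.cosh_pos _),
      div_le_iff₀ (Real.cosh_pos _)]
    have h1 := cosh_ge (Real.pi * y)
    rw [abs_mul, abs_of_pos hπ] at h1
    have h2 : Real.exp (θ * Real.pi * |y|) =
        Real.exp ((θ - 1) * Real.pi * |y|) * Real.exp (Real.pi * |y|) := by
      rw [← Real.exp_add]
      congr 1
      ring
    have h3 := hb y
    rw [h2] at h3
    have h4 : 0 ≤ 2 * C * Real.exp ((θ - 1) * Real.pi * |y|) := by positivity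
    nlinarith [mul_le_mul_of_nonneg_left h1 h4]

theorem integral_cosh : ∫ y : ℝ, (1 : ℂ) / (Real.cosh (Real.pi * y) : ℂ) = 1 := by
  have hπ := Real.pi_pos
  have hi := int_div (fun _ => 1) continuous_const 1 0 zero_le_one zero_lt_one (fun y => by simp)
  have hd : ∀ y : ℝ, HasDerivAt (fun y : ℝ => 2 / Real.pi * Real.arctan (Real.exp (Real.pi * y)))
      (1 / Real.cosh (Real.pi * y)) y := by
    intro y
    have h1 : HasDerivAt (fun y : ℝ => Real.exp (Real.pi * y))
        (Real.exp (Real.pi * y) * Real.pi) y := by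
      have := ((hasDerivAt_id y).const_mul Real.pi).exp
      simpa using this
    have h2 := (h1.arctan).const_mul (2 / Real.pi)
    have h3 := Real.exp_pos (Real.pi * y)
    have e : 1 / Real.cosh (Real.pi * y) =
        2 / Real.pi * (1 / (1 + Real.exp (Real.pi * y) ^ 2) * (Real.exp (Real.pi * y) * Real.pi)) := by
      rw [Real.cosh_eq, Real.exp_neg]
      field_simp
      try ring
    rw [e]
    exact h2
  have hr : Integrable fun y : ℝ => 1 / Real.cosh (Real.pi * y) := by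
    have := hi.norm
    refine this.congr (Eventually.of_forall fun y => ?_)
    show ‖(1 : ℂ) / (Real.cosh (Real.pi * y) : ℂ)‖ = 1 / Real.cosh (Real.pi * y)
    rw [norm_div, norm_one, Complex.norm_real, Real.norm_eq_abs, abs_of_pos (Real.cosh_pos _)]
  have hbot : Tendsto (fun y : ℝ => 2 / Real.pi * Real.arctan (Real.exp (Real.pi * y))) atBot
      (𝓝 0) := by
    have h1 : Tendsto (fun y : ℝ => Real.exp (Real.pi * y)) atBot (𝓝 0) :=
      Real.tendsto_exp_atBot.comp (tendsto_id.const_mul_atBot hπ)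
    have h2 := (Real.continuous_arctan.tendsto 0).comp h1
    have h3 := h2.const_mul (2 / Real.pi)
    simpa using h3
  have htop : Tendsto (fun y : ℝ => 2 / Real.pi * Real.arctan (Real.exp (Real.pi * y))) atTop
      (𝓝 1) := by
    have h1 : Tendsto (fun y : ℝ => Real.exp (Real.pi * y)) atTop atTop :=
      Real.tendsto_exp_atTop.comp (tendsto_id.const_mul_atTop hπ)
    have h2 := (tendsto_nhds_of_tendsto_nhdsWithin Real.tendsto_arctan_atTop).comp h1
    have h3 := h2.const_mul (2 / Real.pi)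
    have e : 2 / Real.pi * (Real.pi / 2) = 1 := by field_simp
    rw [e] at h3
    exact h3
  have h := integral_of_hasDerivAt_of_tendsto hd hr hbot htop
  have e : (fun y : ℝ => (1 : ℂ) / (Real.cosh (Real.pi * y) : ℂ)) =
      fun y : ℝ => ((1 / Real.cosh (Real.pi * y) : ℝ) : ℂ) := by
    funext y
    push_cast
    rfl
  rw [e, integral_complex_ofReal, h]
  norm_num

theorem norm_sin_ge (z : ℂ) : (Real.exp |z.im| - Real.exp (-|z.im|)) / 2 ≤ ‖Complex.sin z‖ := by
  have e : Complex.sin z = (Complex.exp (-z * Complex.I) - Complex.exp (z * Complex.I)) *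
      Complex.I / 2 := rfl
  have e1 : ‖Complex.exp (-z * Complex.I)‖ = Real.exp z.im := by
    rw [Complex.norm_exp]
    simp
  have e2 : ‖Complex.exp (z * Complex.I)‖ = Real.exp (-z.im) := by
    rw [Complex.norm_exp]
    simp
  rw [e, norm_div, norm_mul, Complex.norm_I, mul_one]
  have h2 : ‖(2 : ℂ)‖ = 2 := by simp
  rw [h2]
  apply div_le_div_of_nonneg_right _ (by norm_num)
  rcases le_total 0 z.im with h | h
  · rw [abs_of_nonneg h, ← e1, ← e2]
    exact norm_sub_norm_le _ _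
  · rw [abs_of_nonpos h, neg_neg, ← e1, ← e2, norm_sub_rev]
    exact norm_sub_norm_le _ _

theorem exp_half {u : ℝ} (hu : 1 ≤ u) : Real.exp u / 4 ≤ (Real.exp u - Real.exp (-u)) / 2 := by
  have h1 : Real.exp (-u) * Real.exp (2 * u) = Real.exp u := by
    rw [← Real.exp_add]; congr 1; ring
  have h2 := Real.add_one_le_exp (2 * u)
  have h3 := Real.exp_pos (-u)
  nlinarith

/-- `sin (π s)` -/
noncomputable def sn (s : ℂ) : ℂ := Complex.sin (Real.pi * s)

/-- the regularised quotient -/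
noncomputable def Hf (G : ℂ → ℂ) (s : ℂ) : ℂ := dslope G 0 s / dslope sn 0 s

theorem sn_zero : sn 0 = 0 := by simp [sn]

theorem sn_ne {s : ℂ} (h1 : -1 < s.re) (h2 : s.re < 1) (h0 : s ≠ 0) : sn s ≠ 0 := by
  intro h
  obtain ⟨k, hk⟩ := Complex.sin_eq_zero_iff.1 h
  have hπ : (Real.pi : ℂ) ≠ 0 := by exact_mod_cast Real.pi_ne_zero
  have h3 : s = k := by
    rw [mul_comm] at hk
    exact mul_right_cancel₀ hπ hk
  rw [h3] at h1 h2
  simp only [Complex.intCast_re] at h1 h2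
  have h4 : -1 < k := by exact_mod_cast h1
  have h5 : k < 1 := by exact_mod_cast h2
  have h6 : k = 0 := by omega
  rw [h6] at h3
  exact h0 (by simpa using h3)

theorem sn_diff : Differentiable ℂ sn := by
  unfold sn
  fun_prop

theorem dsn_ne {s : ℂ} (h1 : -1 < s.re) (h2 : s.re < 1) : dslope sn 0 s ≠ 0 := by
  by_cases h0 : s = 0
  · rw [h0, dslope_same]
    have h3 : HasDerivAt sn (Complex.cos (Real.pi * 0) * Real.pi) 0 := by
      have h4 := ((hasDerivAt_id (0 : ℂ)).const_mul (Real.pi : ℂ)).csin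
      rw [mul_one] at h4
      exact h4
    rw [h3.deriv]
    simp [Real.pi_ne_zero]
  · rw [dslope_of_ne _ h0, slope_def_field, sn_zero, sub_zero, sub_zero]
    exact div_ne_zero (sn_ne h1 h2 h0) h0

theorem Hf_eq (G : ℂ → ℂ) {s : ℂ} (h0 : s ≠ 0) : Hf G s = (G s - G 0) / sn s := by
  unfold Hf
  rw [dslope_of_ne _ h0, dslope_of_ne _ h0, slope_def_field, slope_def_field, sn_zero, sub_zero,
    sub_zero, div_div_div_cancel_right₀ h0]

theorem sn_right (y : ℝ) : sn (((1 / 2 : ℝ) : ℂ) + y * Complex.I) = Real.cosh (Real.pi * y) := by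
  unfold sn
  have e : (Real.pi : ℂ) * (((1 / 2 : ℝ) : ℂ) + y * Complex.I) =
      ((Real.pi * y : ℝ) : ℂ) * Complex.I + (Real.pi : ℂ) / 2 := by
    push_cast
    ring
  rw [e, Complex.sin_add_pi_div_two, Complex.cos_mul_I, Complex.ofReal_cosh]

theorem sn_left (y : ℝ) : sn (((-(1 / 2) : ℝ) : ℂ) + y * Complex.I) =
    -(Real.cosh (Real.pi * y) : ℂ) := by
  unfold sn
  have e : (Real.pi : ℂ) * (((-(1 / 2) : ℝ) : ℂ) + y * Complex.I) =
      ((Real.pi * y : ℝ) : ℂ) * Complex.I - (Real.pi : ℂ) / 2 := by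
    push_cast
    ring
  rw [e, Complex.sin_sub_pi_div_two, Complex.cos_mul_I, Complex.ofReal_cosh]


theorem line_ne {a : ℝ} (ha : a ≠ 0) (y : ℝ) : (a : ℂ) + y * Complex.I ≠ 0 := by
  intro h
  apply ha
  have := congrArg Complex.re h
  simpa using this

theorem line_ne' {t : ℝ} (ht : t ≠ 0) (x : ℝ) : (x : ℂ) + t * Complex.I ≠ 0 := by
  intro h
  apply ht
  have := congrArg Complex.im h
  simpa using this

/-- bound on the horizontal sides -/
noncomputable def Bd (C θ g u : ℝ) : ℝ :=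
  4 * C * Real.exp ((θ - 1) * Real.pi * u) + 4 * g * Real.exp (-Real.pi * u)

theorem Bd_lim (C θ g : ℝ) (hθ : θ < 1) : Tendsto (Bd C θ g) atTop (𝓝 0) := by
  have hπ := Real.pi_pos
  have h1 : Tendsto (fun u : ℝ => Real.exp ((θ - 1) * Real.pi * u)) atTop (𝓝 0) :=
    Real.tendsto_exp_atBot.comp
      (tendsto_id.const_mul_atTop_of_neg (mul_neg_of_neg_of_pos (by linarith) hπ))
  have h2 : Tendsto (fun u : ℝ => Real.exp (-Real.pi * u)) atTop (𝓝 0) :=
    Real.tendsto_exp_atBot.comp (tendsto_id.const_mul_atTop_of_neg (by linarith))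
  have h3 := (h1.const_mul (4 * C)).add (h2.const_mul (4 * g))
  rw [mul_zero, mul_zero, add_zero] at h3
  exact h3

theorem horiz (G : ℂ → ℂ) (C θ : ℝ) (hC : 0 ≤ C)
    (hb : ∀ s : ℂ, |s.re| ≤ 1 / 2 → ‖G s‖ ≤ C * Real.exp (θ * Real.pi * |s.im|))
    {t : ℝ} (ht : 1 ≤ |t|) :
    ‖∫ x in (-(1 / 2) : ℝ)..(1 / 2 : ℝ), Hf G ((x : ℂ) + (t : ℂ) * Complex.I)‖ ≤
      Bd C θ ‖G 0‖ |t| := by
  have hπ := Real.pi_pos
  have h1 : ∀ x ∈ Set.uIoc (-(1 / 2) : ℝ) (1 / 2),
      ‖Hf G ((x : ℂ) + (t : ℂ) * Complex.I)‖ ≤ Bd C θ ‖G 0‖ |t| := by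
    intro x hx
    rw [Set.uIoc_of_le (by norm_num)] at hx
    have ht0 : t ≠ 0 := by
      rintro rfl
      norm_num at ht
    rw [Hf_eq G (line_ne' ht0 x), norm_div]
    have hre : ((x : ℂ) + (t : ℂ) * Complex.I).re = x := by simp
    have him : ((x : ℂ) + (t : ℂ) * Complex.I).im = t := by simp
    have h2 := hb ((x : ℂ) + (t : ℂ) * Complex.I)
      (by rw [hre, abs_le]; exact ⟨by linarith [hx.1], hx.2⟩)
    rw [him] at h2
    have h3 : ‖G ((x : ℂ) + (t : ℂ) * Complex.I) - G 0‖ ≤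
        C * Real.exp (θ * Real.pi * |t|) + ‖G 0‖ := (norm_sub_le _ _).trans (by linarith)
    have h4 : Real.exp (Real.pi * |t|) / 4 ≤ ‖sn ((x : ℂ) + (t : ℂ) * Complex.I)‖ := by
      have h5 := norm_sin_ge (Real.pi * ((x : ℂ) + (t : ℂ) * Complex.I))
      have h6 : ((Real.pi : ℂ) * ((x : ℂ) + (t : ℂ) * Complex.I)).im = Real.pi * t := by simp
      rw [h6, abs_mul, abs_of_pos hπ] at h5
      have h7 : 1 ≤ Real.pi * |t| := by nlinarith [Real.pi_gt_three]
      exact (exp_half h7).trans h5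
    have h8 : 0 < ‖sn ((x : ℂ) + (t : ℂ) * Complex.I)‖ :=
      lt_of_lt_of_le (by positivity) h4
    rw [div_le_iff₀ h8]
    have hB0 : 0 ≤ Bd C θ ‖G 0‖ |t| := by unfold Bd; positivity
    have h9 : Bd C θ ‖G 0‖ |t| * (Real.exp (Real.pi * |t|) / 4) =
        C * Real.exp (θ * Real.pi * |t|) + ‖G 0‖ := by
      unfold Bd
      have e1 : Real.exp ((θ - 1) * Real.pi * |t|) * Real.exp (Real.pi * |t|) =
          Real.exp (θ * Real.pi * |t|) := by
        rw [← Real.exp_add]; congr 1; ring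
      have e2 : Real.exp (-Real.pi * |t|) * Real.exp (Real.pi * |t|) = 1 := by
        rw [← Real.exp_add, ← Real.exp_zero]; congr 1; ring
      linear_combination C * e1 + ‖G 0‖ * e2
    calc _ ≤ C * Real.exp (θ * Real.pi * |t|) + ‖G 0‖ := h3
      _ = Bd C θ ‖G 0‖ |t| * (Real.exp (Real.pi * |t|) / 4) := h9.symm
      _ ≤ _ := mul_le_mul_of_nonneg_left h4 hB0
  have h := intervalIntegral.norm_integral_le_of_norm_le_const h1
  have e : |(1 / 2 : ℝ) - -(1 / 2)| = 1 := by norm_num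
  rw [e, mul_one] at h
  exact h

open Pool.Agent.R237.LZ in
/-- LZ-STRIP -/
theorem t_STRIP : S_STRIP := by
  intro G C θ hC hθ hG hb
  have hπ := Real.pi_pos
  have hSo : IsOpen {s : ℂ | -1 < s.re ∧ s.re < 1} :=
    (isOpen_lt continuous_const Complex.continuous_re).inter
      (isOpen_lt Complex.continuous_re continuous_const)
  have hSn : {s : ℂ | -1 < s.re ∧ s.re < 1} ∈ 𝓝 (0 : ℂ) := hSo.mem_nhds (by simp)
  have hHd : DifferentiableOn ℂ (Hf G) {s : ℂ | -1 < s.re ∧ s.re < 1} := by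
    apply DifferentiableOn.div
    · exact (Complex.differentiableOn_dslope hSn).2 hG
    · exact (Complex.differentiableOn_dslope hSn).2 sn_diff.differentiableOn
    · intro s hs
      exact dsn_ne hs.1 hs.2
  have hline : ∀ a : ℝ, |a| ≤ 1 / 2 → Continuous fun y : ℝ => G ((a : ℂ) + y * Complex.I) := by
    intro a ha
    have h1 : Continuous fun y : ℝ => (a : ℂ) + y * Complex.I := by fun_prop
    apply hG.continuousOn.comp_continuous h1
    intro y
    have h2 := abs_le.1 ha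
    have hre : ((a : ℂ) + (y : ℂ) * Complex.I).re = a := by simp
    show -1 < ((a : ℂ) + (y : ℂ) * Complex.I).re ∧ ((a : ℂ) + (y : ℂ) * Complex.I).re < 1
    rw [hre]
    constructor <;> linarith [h2.1, h2.2]
  have hbl : ∀ a : ℝ, |a| ≤ 1 / 2 → ∀ y : ℝ,
      ‖G ((a : ℂ) + y * Complex.I)‖ ≤ C * Real.exp (θ * Real.pi * |y|) := by
    intro a ha y
    have hre : ((a : ℂ) + (y : ℂ) * Complex.I).re = a := by simp
    have him : ((a : ℂ) + (y : ℂ) * Complex.I).im = y := by simp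
    have := hb ((a : ℂ) + y * Complex.I) (by rw [hre]; exact ha)
    rwa [him] at this
  have hp : |(1 / 2 : ℝ)| ≤ 1 / 2 := by rw [abs_of_pos] <;> norm_num
  have hm : |(-(1 / 2) : ℝ)| ≤ 1 / 2 := by rw [abs_neg]; exact hp
  have iP := int_div _ (hline (1 / 2) hp) C θ hC hθ (hbl (1 / 2) hp)
  have iM := int_div _ (hline (-(1 / 2)) hm) C θ hC hθ (hbl (-(1 / 2)) hm)
  have i1 := int_div (fun _ => 1) continuous_const 1 0 zero_le_one zero_lt_one (fun y => by simp)
  have eP : (fun y : ℝ => Hf G (((1 / 2 : ℝ) : ℂ) + y * Complex.I)) =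
      fun y : ℝ => G (((1 / 2 : ℝ) : ℂ) + y * Complex.I) / (Real.cosh (Real.pi * y) : ℂ) -
        G 0 * (1 / (Real.cosh (Real.pi * y) : ℂ)) := by
    funext y
    rw [Hf_eq G (line_ne (by norm_num) y), sn_right]
    ring
  have eM : (fun y : ℝ => Hf G (((-(1 / 2) : ℝ) : ℂ) + y * Complex.I)) =
      fun y : ℝ => G 0 * (1 / (Real.cosh (Real.pi * y) : ℂ)) -
        G (((-(1 / 2) : ℝ) : ℂ) + y * Complex.I) / (Real.cosh (Real.pi * y) : ℂ) := by
    funext y
    rw [Hf_eq G (line_ne (by norm_num) y), sn_left, div_neg]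
    ring
  have jP : Integrable fun y : ℝ => Hf G (((1 / 2 : ℝ) : ℂ) + y * Complex.I) := by
    rw [eP]; exact iP.sub (i1.const_mul (G 0))
  have jM : Integrable fun y : ℝ => Hf G (((-(1 / 2) : ℝ) : ℂ) + y * Complex.I) := by
    rw [eM]; exact (i1.const_mul (G 0)).sub iM
  have vP : ∫ y : ℝ, Hf G (((1 / 2 : ℝ) : ℂ) + y * Complex.I) =
      (∫ y : ℝ, G (((1 / 2 : ℝ) : ℂ) + y * Complex.I) / (Real.cosh (Real.pi * y) : ℂ)) - G 0 := by
    rw [eP, integral_sub iP (i1.const_mul (G 0)), integral_const_mul, integral_cosh, mul_one]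
  have vM : ∫ y : ℝ, Hf G (((-(1 / 2) : ℝ) : ℂ) + y * Complex.I) =
      G 0 - ∫ y : ℝ, G (((-(1 / 2) : ℝ) : ℂ) + y * Complex.I) /
        (Real.cosh (Real.pi * y) : ℂ) := by
    rw [eM, integral_sub (i1.const_mul (G 0)) iM, integral_const_mul, integral_cosh, mul_one]
  have hdiff : ∀ T : ℝ, 1 ≤ T →
      ‖(∫ y in (-T)..T, Hf G (((1 / 2 : ℝ) : ℂ) + y * Complex.I)) -
        ∫ y in (-T)..T, Hf G (((-(1 / 2) : ℝ) : ℂ) + y * Complex.I)‖ ≤
        2 * Bd C θ ‖G 0‖ T := by
    intro T hT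
    have hsub : (Set.uIcc (-(1 / 2) : ℝ) (1 / 2 : ℝ) ×ℂ Set.uIcc (-T) T) ⊆
        {s : ℂ | -1 < s.re ∧ s.re < 1} := by
      intro s hs
      have h1 : s.re ∈ Set.uIcc (-(1 / 2) : ℝ) (1 / 2 : ℝ) := hs.1
      rw [Set.uIcc_of_le (by norm_num)] at h1
      have h2 : -(1 / 2) ≤ s.re := h1.1
      have h3 : s.re ≤ 1 / 2 := h1.2
      exact ⟨by linarith, by linarith⟩
    have hc := Complex.integral_boundary_rect_eq_zero_of_differentiableOn (Hf G)
      ⟨-(1 / 2), -T⟩ ⟨1 / 2, T⟩ (hHd.mono hsub)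
    dsimp only at hc
    simp only [smul_eq_mul] at hc
    have h1 := horiz G C θ hC hb (t := T) (by rw [abs_of_nonneg (by linarith)]; exact hT)
    have h2 := horiz G C θ hC hb (t := -T)
      (by rw [abs_neg, abs_of_nonneg (by linarith)]; exact hT)
    rw [abs_neg] at h2
    rw [abs_of_nonneg (by linarith : (0 : ℝ) ≤ T)] at h1 h2
    have e : Complex.I * ((∫ y in (-T)..T, Hf G (((1 / 2 : ℝ) : ℂ) + y * Complex.I)) -
        ∫ y in (-T)..T, Hf G (((-(1 / 2) : ℝ) : ℂ) + y * Complex.I)) =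
        (∫ x in (-(1 / 2) : ℝ)..(1 / 2 : ℝ), Hf G ((x : ℂ) + (T : ℂ) * Complex.I)) -
        ∫ x in (-(1 / 2) : ℝ)..(1 / 2 : ℝ), Hf G ((x : ℂ) + ((-T : ℝ) : ℂ) * Complex.I) := by
      linear_combination hc
    have e2 : ‖Complex.I * ((∫ y in (-T)..T, Hf G (((1 / 2 : ℝ) : ℂ) + y * Complex.I)) -
        ∫ y in (-T)..T, Hf G (((-(1 / 2) : ℝ) : ℂ) + y * Complex.I))‖ =
        ‖(∫ y in (-T)..T, Hf G (((1 / 2 : ℝ) : ℂ) + y * Complex.I)) -
        ∫ y in (-T)..T, Hf G (((-(1 / 2) : ℝ) : ℂ) + y * Complex.I)‖ := by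
      rw [norm_mul, Complex.norm_I, one_mul]
    rw [← e2, e]
    refine (norm_sub_le _ _).trans ?_
    linarith
  have hlim1 : Tendsto (fun T : ℝ => (∫ y in (-T)..T, Hf G (((1 / 2 : ℝ) : ℂ) + y * Complex.I)) -
      ∫ y in (-T)..T, Hf G (((-(1 / 2) : ℝ) : ℂ) + y * Complex.I)) atTop (𝓝 0) := by
    apply squeeze_zero_norm' (a := fun T => 2 * Bd C θ ‖G 0‖ T)
    · filter_upwards [eventually_ge_atTop (1 : ℝ)] with T hT
      exact hdiff T hT
    · simpa using (Bd_lim C θ ‖G 0‖ hθ).const_mul 2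
  have hlim2 := (intervalIntegral_tendsto_integral jP tendsto_neg_atTop_atBot tendsto_id).sub
    (intervalIntegral_tendsto_integral jM tendsto_neg_atTop_atBot tendsto_id)
  have hu := tendsto_nhds_unique hlim1 hlim2
  rw [vP, vM] at hu
  have c1 : (((1 / 2 : ℝ)) : ℂ) = 1 / 2 := by push_cast; rfl
  have c2 : (((-(1 / 2) : ℝ)) : ℂ) = -(1 / 2) := by push_cast; rfl
  rw [c1, c2] at hu
  linear_combination -hu

end Pool.Agent.R46.LZ
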