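import Pool.Agent.R972.OP.Stm4
import Pool.Agent.W880.KH.Body

/-!
# From Poincare to the `L¹` inequality, for densities (project OP3, piece CHD)
(adaptation of `Pool.Agent.R310.OP2.Body.bodl`)
-/

set_option autoImplicit false

namespace Pool.Agent.R46.OP3CHD

open MeasureTheory Set Filter Topology
open Pool.Agent.R972.OP
open Pool.Agent.W695.KH (Eu EU EV VV Sm Pot Uu)
open Pool.Agent.W880.KH (EU_le EU_sub_const EU_sub_sq integrable_exp integrable_mul)
open Pool.Agent.Y506.RG (EW VW Adm)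
open scoped ENNReal InnerProductSpace Pointwise

variable {n : ℕ}

theorem adm_int {w : Eu (Fin n) → ℝ} (hw : Adm w) : Integrable w := by
  refine Integrable.mono' hw.int hw.meas.aestronglyMeasurable (Eventually.of_forall fun x => ?_)
  rw [Real.norm_eq_abs, abs_of_nonneg (hw.nonneg x)]
  have h1 := hw.nonneg x
  nlinarith [sq_nonneg ‖x‖, mul_nonneg (sq_nonneg ‖x‖) h1]

theorem adm_bdd {w : Eu (Fin n) → ℝ} (hw : Adm w) (u : Eu (Fin n) → ℝ) (hu : Continuous u)
    (B : ℝ) (hB : ∀ x, |u x| ≤ B) : Integrable fun x => u x * w x := by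
  apply (adm_int hw).bdd_mul (c := B) hu.aestronglyMeasurable
  exact Eventually.of_forall fun x => by
    rw [Real.norm_eq_abs]
    exact hB x

/-- total variation controls the means of bounded functions -/
theorem unifE {w : Eu (Fin n) → ℝ} (hw : Adm w) (U : Eu (Fin n) → ℝ)
    (hU : EU U (fun _ => 1) = 1) (u : Eu (Fin n) → ℝ) (hu : Continuous u) (B : ℝ)
    (hB : ∀ x, |u x| ≤ B) :
    |EU U u - EW w u| ≤ B * ∫ x, |Real.exp (-U x) - w x / ∫ y, w y| := by
  have hi1 := integrable_mul U hU u hu B hB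
  have hi2 := adm_bdd hw u hu B hB
  set W := ∫ y, w y with hW
  have hi3 : Integrable fun x => u x * w x / W := hi2.div_const W
  have hd : Integrable fun x => Real.exp (-U x) - w x / W :=
    (integrable_exp U hU).sub ((adm_int hw).div_const W)
  have e1 : EU U u - EW w u = ∫ x, u x * (Real.exp (-U x) - w x / W) := by
    have e2 : (fun x => u x * (Real.exp (-U x) - w x / W)) =
        fun x => u x * Real.exp (-U x) - u x * w x / W := by
      funext x
      ring
    rw [e2, integral_sub hi1 hi3, integral_div]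
    rfl
  rw [e1]
  have h3 := norm_integral_le_of_norm_le (hd.abs.const_mul B)
    (f := fun x => u x * (Real.exp (-U x) - w x / W)) (Eventually.of_forall fun x => by
      rw [norm_mul, Real.norm_eq_abs, Real.norm_eq_abs]
      exact mul_le_mul_of_nonneg_right (hB x) (abs_nonneg _))
  rw [integral_const_mul] at h3
  exact h3

theorem EW_le {w : Eu (Fin n) → ℝ} (hw : Adm w) (u : Eu (Fin n) → ℝ) (B : ℝ)
    (hB : ∀ x, |u x| ≤ B) : |EW w u| ≤ B := by
  have h3 := norm_integral_le_of_norm_le ((adm_int hw).const_mul B)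
    (f := fun x => u x * w x) (Eventually.of_forall fun x => by
      rw [norm_mul, Real.norm_eq_abs, Real.norm_eq_abs, abs_of_nonneg (hw.nonneg x)]
      exact mul_le_mul_of_nonneg_right (hB x) (hw.nonneg x))
  rw [integral_const_mul, Real.norm_eq_abs] at h3
  unfold EW
  rw [abs_div, abs_of_pos hw.pos, div_le_iff₀ hw.pos]
  exact h3

theorem chd (h : S_CORL) : S_CHD := by
  intro n w U b A Cp hw hCp hPot hEU hlim hPoi f L M hf hfb
  have hcont : Continuous f := hf.diff.continuous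
  have hL : 0 ≤ L := (norm_nonneg _).trans (hf.grad 0)
  have hgc : Continuous fun x => ‖fderiv ℝ f x‖ :=
    (hf.diff.continuous_fderiv one_ne_zero).norm
  set V := VW w f with hVdef
  set G := EW w (fun x => ‖fderiv ℝ f x‖) with hGdef
  have hG0 : 0 ≤ G := by
    rw [hGdef]
    unfold EW
    exact div_nonneg (integral_nonneg fun x => mul_nonneg (norm_nonneg _) (hw.nonneg x)) hw.pos.le
  by_contra hcon
  push Not at hcon
  have hsq : 0 ≤ Real.sqrt Cp := Real.sqrt_nonneg _
  have hsq2 : Real.sqrt Cp ^ 2 = Cp := Real.sq_sqrt hCp.le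
  have hV : 0 < V := lt_of_le_of_lt (by positivity) hcon
  have hV2 : 16 * Cp * G ^ 2 < V ^ 2 := by
    have h1 : (4 * Real.sqrt Cp * G) ^ 2 < V ^ 2 := by
      apply pow_lt_pow_left₀ hcon (by positivity) two_ne_zero
    have h2 : (4 * Real.sqrt Cp * G) ^ 2 = 16 * Cp * G ^ 2 := by
      rw [mul_pow, mul_pow, hsq2]
      ring
    rwa [h2] at h1
  obtain ⟨c, hc1, hc2⟩ : ∃ c, 4 * G ^ 2 / V < c ∧ c < V / (4 * Cp) := by
    apply exists_between
    rw [div_lt_div_iff₀ hV (by positivity)]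
    nlinarith
  have hc : 0 < c := lt_of_le_of_lt (by positivity) hc1
  obtain ⟨δ, hδ1, hδ2⟩ : ∃ δ, Cp * c < δ ∧ δ < V / 4 := by
    apply exists_between
    rw [lt_div_iff₀ (by positivity)] at hc2
    linarith
  have hδ : 0 < δ := lt_trans (by positivity) hδ1
  set L0 : ℝ := max (max L M) 1 with hL0
  have hL01 : 1 ≤ L0 := le_max_right _ _
  have hgap : 0 < δ / Cp - c := by
    have : c < δ / Cp := by
      rw [lt_div_iff₀ hCp]
      linarith
    linarith
  have hden : 0 < 3 / Cp + L0 ^ 2 := by positivity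
  set τ0 : ℝ := (δ / Cp - c) / (3 / Cp + L0 ^ 2) with hτ0
  have hτ0p : 0 < τ0 := div_pos hgap hden
  set τ : ℕ → ℝ := fun j => ∫ x, |Real.exp (-U j x) - w x / ∫ y, w y| with hτdef
  have hconv : ∀ (u : Eu (Fin n) → ℝ), Continuous u → ∀ B : ℝ, (∀ x, |u x| ≤ B) →
      Tendsto (fun j => EU (U j) u) atTop (𝓝 (EW w u)) := by
    intro u hu B hB
    rw [tendsto_iff_dist_tendsto_zero]
    refine squeeze_zero (fun j => dist_nonneg) (fun j => ?_)
      (g := fun j => B * τ j) (by simpa using hlim.const_mul B)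
    rw [Real.dist_eq]
    exact unifE hw (U j) (hEU j) u hu B hB
  have hf2 : ∀ x, |f x ^ 2| ≤ 1 := fun x => by
    rw [abs_pow]
    exact pow_le_one₀ (abs_nonneg _) (hf.bdd x)
  have ht1 := hconv f hcont 1 hf.bdd
  have ht2 := hconv (fun x => f x ^ 2) (hcont.pow 2) 1 hf2
  have ht3 := hconv (fun x => ‖fderiv ℝ f x‖) hgc L (fun x => by
    rw [abs_norm]
    exact hf.grad x)
  have hv : Tendsto (fun j => EU (U j) (fun x => f x ^ 2) - EU (U j) f ^ 2) atTop
      (𝓝 V) := ht2.sub (ht1.pow 2)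
  have hr : Tendsto (fun j => 4 / c * (EU (U j) fun x => ‖fderiv ℝ f x‖) ^ 2) atTop
      (𝓝 (4 / c * G ^ 2)) := (ht3.pow 2).const_mul _
  have hfinal : V ≤ 4 / c * G ^ 2 := by
    refine le_of_tendsto_of_tendsto hv hr ?_
    filter_upwards [hlim.eventually_lt_const hτ0p,
      hv.eventually (lt_mem_nhds (show 4 * δ < V by linarith))] with j hA1 hA2
    have hA4 := hEU j
    have hA1' : τ j < τ0 := hA1
    have hτ0' : 0 ≤ τ j := integral_nonneg fun x => abs_nonneg _
    have hWP : ∀ v : Eu (Fin n) → ℝ, ContDiff ℝ 1 v → (∀ x, |v x| ≤ 1) →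
        (∀ x, ‖fderiv ℝ v x‖ ≤ L0) →
        δ ≤ EU (U j) (fun x => v x ^ 2) - EU (U j) v ^ 2 →
        c ≤ EU (U j) fun x => ‖fderiv ℝ v x‖ ^ 2 := by
      intro v hv1 hv2 hv3 hv5
      have h1 := hPoi v hv1 ⟨1, hv2⟩ ⟨L0, hv3⟩
      have hv4 : ∀ x, |v x ^ 2| ≤ 1 := fun x => by
        rw [abs_pow]
        exact pow_le_one₀ (abs_nonneg _) (hv2 x)
      have k1 : |EU (U j) v - EW w v| ≤ 1 * τ j := unifE hw (U j) hA4 v hv1.continuous 1 hv2
      have k2 : |EW w v| ≤ 1 := EW_le hw v 1 hv2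
      have k3 : |EU (U j) (fun x => v x ^ 2) - EW w (fun x => v x ^ 2)| ≤ 1 * τ j :=
        unifE hw (U j) hA4 (fun x => v x ^ 2) (hv1.continuous.pow 2) 1 hv4
      have k5 := EU_le (U j) hA4 v hv1.continuous 1 hv2
      have k7 : |EU (U j) (fun x => ‖fderiv ℝ v x‖ ^ 2) - EW w fun x => ‖fderiv ℝ v x‖ ^ 2| ≤
          L0 ^ 2 * τ j := by
        apply unifE hw (U j) hA4 (fun x => ‖fderiv ℝ v x‖ ^ 2)
          ((hv1.continuous_fderiv one_ne_zero).norm.pow 2) (L0 ^ 2)
        intro x
        rw [abs_of_nonneg (by positivity)]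
        exact pow_le_pow_left₀ (norm_nonneg _) (hv3 x) 2
      rw [one_mul] at k1 k3
      have e : EU (U j) (fun x => v x ^ 2) - EU (U j) v ^ 2 =
          VW w v + (EU (U j) (fun x => v x ^ 2) - EW w (fun x => v x ^ 2)) -
            (EU (U j) v - EW w v) * (EU (U j) v + EW w v) := by
        unfold VW
        ring
      have h2 : |(EU (U j) v - EW w v) * (EU (U j) v + EW w v)| ≤ τ j * 2 := by
        rw [abs_mul]
        have h3 : |EU (U j) v + EW w v| ≤ 2 := by
          have := abs_add_le (EU (U j) v) (EW w v)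
          linarith
        exact mul_le_mul k1 h3 (abs_nonneg _) hτ0'
      have h3 := neg_abs_le ((EU (U j) v - EW w v) * (EU (U j) v + EW w v))
      have h4 := le_abs_self (EU (U j) (fun x => v x ^ 2) - EW w (fun x => v x ^ 2))
      have h5 : δ - 3 * τ j ≤ VW w v := by linarith
      have h6 : (δ - 3 * τ j) / Cp ≤ EW w fun x => ‖fderiv ℝ v x‖ ^ 2 := by
        rw [div_le_iff₀ hCp]
        linarith
      have h7 := neg_abs_le (EU (U j) (fun x => ‖fderiv ℝ v x‖ ^ 2) -
        EW w fun x => ‖fderiv ℝ v x‖ ^ 2)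
      have h8 : τ j * (3 / Cp + L0 ^ 2) ≤ δ / Cp - c := by
        have := (lt_div_iff₀ hden).1 hA1'
        linarith
      have h9 : (δ - 3 * τ j) / Cp = δ / Cp - τ j * (3 / Cp) := by ring
      linarith
    obtain ⟨m, hm⟩ : ∃ m, m = EU (U j) f := ⟨_, rfl⟩
    have hmb : |m| ≤ 1 / 2 := hm ▸ EU_le (U j) hA4 f hcont (1 / 2) hfb
    have hfd : ∀ x, fderiv ℝ (fun y => f y - m) x = fderiv ℝ f x := by
      intro x
      rw [fderiv_sub_const]
    have hS : Sm (fun x => f x - m) L M := by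
      refine ⟨?_, hf.diff.sub contDiff_const, ?_, ?_⟩
      · intro x
        have h1 := hfb x
        have h2 : |f x - m| ≤ |f x| + |m| := abs_sub _ _
        linarith
      · intro x
        rw [hfd]
        exact hf.grad x
      · intro x y
        rw [hfd, hfd]
        exact hf.lip x y
    have h1 : EU (U j) (fun x => f x - m) = 0 := by
      rw [EU_sub_const (U j) hA4 f hcont (1 / 2) hfb m, hm, sub_self]
    have h2 : EU (U j) (fun x => (f x - m) ^ 2) =
        EU (U j) (fun x => f x ^ 2) - EU (U j) f ^ 2 := by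
      rw [EU_sub_sq (U j) hA4 f hcont (1 / 2) hfb m, ← hm]
      ring
    have h3 := h (Fin n) (U j) (b j) (A j) (hPot j) hA4 δ c hδ hc (fun x => f x - m) L M hS
      hWP h1 (by rw [h2]; exact hA2)
    rw [h2] at h3
    simp only [hfd] at h3
    exact h3
  rw [div_lt_iff₀ hV] at hc1
  have h9 : V * c ≤ 4 * G ^ 2 := by
    have : 4 / c * G ^ 2 = 4 * G ^ 2 / c := by ring
    rw [this, le_div_iff₀ hc] at hfinal
    exact hfinal
  linarith

end Pool.Agent.R46.OP3CHD
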