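import Pool.Agent.R739.RM.Defs

/-!
# RM-CB: the digits of a base 6 series
-/

set_option autoImplicit false

namespace Pool.Agent.R46

open Finset Filter Topology Pool.Agent.H429R2.Auto Pool.Agent.R544.PQ

namespace RMCBaux

/-- the tail after the digit `m` -/
noncomputable def tau (a : ℕ → ℕ) (m : ℕ) : ℝ := ∑' k : ℕ, (a (m + k) : ℝ) / 6 ^ (k + 1)

theorem geo : HasSum (fun k : ℕ => (5 : ℝ) / 6 ^ (k + 1)) 1 := by
  have h1 := (hasSum_geometric_of_lt_one (r := (1 / 6 : ℝ)) (by norm_num) (by norm_num)).mul_left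
    (5 / 6)
  have e1 : (5 / 6 : ℝ) * (1 - 1 / 6)⁻¹ = 1 := by norm_num
  rw [e1] at h1
  refine h1.congr_fun fun k => ?_
  rw [pow_succ, one_div, inv_pow]
  field_simp

theorem summ {a : ℕ → ℕ} (ha : ∀ k, a k ≤ 5) (m : ℕ) :
    Summable (fun k : ℕ => (a (m + k) : ℝ) / 6 ^ (k + 1)) := by
  refine Summable.of_nonneg_of_le (fun k => by positivity) (fun k => ?_) geo.summable
  have : (a (m + k) : ℝ) ≤ 5 := by exact_mod_cast ha (m + k)
  gcongr

theorem tau_nonneg (a : ℕ → ℕ) (m : ℕ) : 0 ≤ tau a m := tsum_nonneg fun k => by positivity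

theorem tau_lt {a : ℕ → ℕ} (ha : ∀ k, a k ≤ 5) (m : ℕ) (h : ∃ j, m ≤ j ∧ a j ≠ 5) :
    tau a m < 1 := by
  obtain ⟨j, hj, hj5⟩ := h
  obtain ⟨k, rfl⟩ : ∃ k, j = m + k := ⟨j - m, by omega⟩
  rw [← geo.tsum_eq]
  refine Summable.tsum_lt_tsum (i := k) (fun k => ?_) ?_ (summ ha m) geo.summable
  · have : (a (m + k) : ℝ) ≤ 5 := by exact_mod_cast ha (m + k)
    gcongr
  · have h1 : a (m + k) < 5 := lt_of_le_of_ne (ha _) hj5
    have : (a (m + k) : ℝ) < 5 := by exact_mod_cast h1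
    gcongr

theorem tau_rec {a : ℕ → ℕ} (ha : ∀ k, a k ≤ 5) (m : ℕ) :
    6 * tau a m = a m + tau a (m + 1) := by
  unfold tau
  rw [(summ ha m).tsum_eq_zero_add, mul_add, ← tsum_mul_left]
  congr 1
  · simp
    field_simp
  · refine tsum_congr fun k => ?_
    have e1 : m + (k + 1) = m + 1 + k := by ring
    rw [e1, pow_succ 6 (k + 1)]
    field_simp

/-- the integer parts -/
def NN (a : ℕ → ℕ) : ℕ → ℕ
  | 0 => a 0
  | m + 1 => 6 * NN a m + a (m + 1)

theorem main {a : ℕ → ℕ} (ha : ∀ k, a k ≤ 5) (m : ℕ) :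
    6 ^ m * (6 * tau a 0) = NN a m + tau a (m + 1) := by
  induction m with
  | zero =>
    rw [tau_rec ha 0, pow_zero, one_mul]
    rfl
  | succ m ih =>
    rw [pow_succ', mul_assoc, ih, mul_add, tau_rec ha (m + 1),
      show NN a (m + 1) = 6 * NN a m + a (m + 1) from rfl]
    push_cast
    ring

theorem NN_mod {a : ℕ → ℕ} (ha : ∀ k, a k ≤ 5) (m : ℕ) : NN a m % 6 = a m := by
  cases m with
  | zero =>
    have := ha 0
    unfold NN
    omega
  | succ m =>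
    have := ha (m + 1)
    unfold NN
    omega

end RMCBaux

open RMCBaux

theorem RM_CB : Pool.Agent.R739.RM.STM_CB := by
  intro x i0 h0 h5
  apply eq_conf
  obtain ⟨a, haD⟩ : ∃ a : ℕ → ℕ, a = fun k : ℕ => ((x (i0 + k) : Fin 6) : ℕ) := ⟨_, rfl⟩
  have ha : ∀ k, a k ≤ 5 := by
    intro k
    rw [haD]
    have := (x (i0 + k)).isLt
    beta_reduce
    omega
  have hβ : (∑' k : ℕ, ((x (i0 + k) : ℕ) : ℝ) / (6 : ℝ) ^ (i0 + k)) =
      (6 : ℝ) ^ (-i0) * (6 * tau a 0) := by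
    unfold tau
    rw [← tsum_mul_left, ← tsum_mul_left]
    refine tsum_congr fun k => ?_
    rw [haD]
    beta_reduce
    rw [zero_add, zpow_add₀ (by norm_num), zpow_neg, zpow_natCast, pow_succ]
    field_simp
  rw [hβ]
  have hlt : ∀ m, tau a m < 1 := by
    intro m
    apply tau_lt ha
    obtain ⟨i, hi, hi5⟩ := h5 (i0 + m)
    refine ⟨(i - i0).toNat, by omega, ?_⟩
    rw [haD]
    beta_reduce
    have e1 : i0 + (((i - i0).toNat : ℕ) : ℤ) = i := by omega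
    rw [e1]
    intro h
    apply hi5
    exact Fin.ext h
  intro i
  rcases lt_or_ge i i0 with hi | hi
  · rw [h0 i hi]
    obtain ⟨l, hl⟩ : ∃ l : ℕ, i0 - i = l + 1 := ⟨(i0 - i - 1).toNat, by omega⟩
    have e1 : (6 : ℝ) ^ i * ((6 : ℝ) ^ (-i0) * (6 * tau a 0)) = tau a 0 / 6 ^ l := by
      rw [← mul_assoc, ← zpow_add₀ (by norm_num)]
      have e2 : i + -i0 = -(((l + 1 : ℕ)) : ℤ) := by push_cast; omega
      rw [e2, zpow_neg, zpow_natCast, pow_succ]
      field_simp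
    rw [e1]
    have h1 : tau a 0 / 6 ^ l < 1 := by
      rw [div_lt_one (by positivity)]
      exact lt_of_lt_of_le (hlt 0) (one_le_pow₀ (by norm_num))
    rw [Nat.floor_eq_zero.2 h1]
    rfl
  · obtain ⟨m, hm⟩ : ∃ m : ℕ, i = i0 + m := ⟨(i - i0).toNat, by omega⟩
    have e1 : (6 : ℝ) ^ i * ((6 : ℝ) ^ (-i0) * (6 * tau a 0)) = NN a m + tau a (m + 1) := by
      rw [← main ha m, ← mul_assoc, ← zpow_add₀ (by norm_num)]
      have e2 : i + -i0 = (m : ℤ) := by omega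
      rw [e2, zpow_natCast]
    rw [e1]
    have h1 : ⌊(NN a m : ℝ) + tau a (m + 1)⌋₊ = NN a m := by
      rw [Nat.floor_eq_iff (add_nonneg (Nat.cast_nonneg _) (tau_nonneg _ _))]
      constructor
      · linarith [tau_nonneg a (m + 1)]
      · linarith [hlt (m + 1)]
    rw [h1, NN_mod ha, haD, hm]

end Pool.Agent.R46
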