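import Mathlib

/-! Metric facts on trees. -/

namespace Pool.Agent.R46.TreeMetric

open SimpleGraph

variable {V : Type*} {G : SimpleGraph V}

/-- adjacent vertices have distances differing by exactly one -/
theorem F1 (hG : G.IsTree) {u w : V} (h : G.Adj u w) (a : V) :
    G.dist u a = G.dist w a + 1 ∨ G.dist w a = G.dist u a + 1 := by
  have := hG.dist_eq_dist_add_one_of_adj a h
  rwa [G.dist_comm (u := a) (v := u), G.dist_comm (u := a) (v := w)] at this

/-- the neighbour closer to `a` is unique -/
theorem F3 (hG : G.IsTree) {v c c' a : V} (h : G.Adj v c) (h' : G.Adj v c')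
    (hc : G.dist v a = G.dist c a + 1) (hc' : G.dist v a = G.dist c' a + 1) : c = c' := by
  obtain ⟨p, hp⟩ := hG.connected.exists_walk_length_eq_dist c a
  obtain ⟨p', hp'⟩ := hG.connected.exists_walk_length_eq_dist c' a
  have q1 : (Walk.cons h p).IsPath := by
    apply Walk.isPath_of_length_eq_dist
    rw [Walk.length_cons, hp, hc]
  have q2 : (Walk.cons h' p').IsPath := by
    apply Walk.isPath_of_length_eq_dist
    rw [Walk.length_cons, hp', hc']
  have e := (hG.isAcyclic.subsingleton_path v a).elim ⟨_, q1⟩ ⟨_, q2⟩
  have e' : Walk.cons h p = Walk.cons h' p' := congrArg Subtype.val e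
  have := congrArg Walk.snd e'
  simpa using this

/-- there is a closer neighbour -/
theorem exists_closer (hG : G.IsTree) {u a : V} (h : u ≠ a) :
    ∃ c, G.Adj u c ∧ G.dist u a = G.dist c a + 1 := by
  obtain ⟨p, hp⟩ := hG.connected.exists_walk_length_eq_dist u a
  cases p with
  | nil => exact absurd rfl h
  | @cons _ c _ hadj q =>
    refine ⟨c, hadj, ?_⟩
    rw [Walk.length_cons] at hp
    have h1 : G.dist c a ≤ q.length := dist_le q
    have h2 : G.dist u a ≤ G.dist u c + G.dist c a := hG.connected.dist_triangle
    have h3 : G.dist u c = 1 := dist_eq_one_iff_adj.2 hadj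
    omega

/-- crossing the edge `w u` -/
theorem F2 (hG : G.IsTree) {u w a b : V} (h : G.Adj u w)
    (ha : G.dist u a = G.dist w a + 1) (hb : G.dist w b = G.dist u b + 1) :
    G.dist a b = G.dist a w + 1 + G.dist u b := by
  have main : ∀ n : ℕ, ∀ b : V, G.dist u b = n → G.dist w b = G.dist u b + 1 →
      G.dist b a = G.dist w a + 1 + G.dist u b := by
    intro n
    induction n using Nat.strong_induction_on with
    | _ n ih =>
      intro b hn hb
      by_cases hbu : b = u
      · subst hbu
        rw [dist_self]
        omega
      · obtain ⟨b', hbb', hcl⟩ := exists_closer hG hbu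
        have c1 : G.dist u b = G.dist u b' + 1 := by
          rw [G.dist_comm (u := u) (v := b), G.dist_comm (u := u) (v := b')]; exact hcl
        have tri : G.dist w b ≤ G.dist w b' + G.dist b' b := hG.connected.dist_triangle
        have hd1 : G.dist b' b = 1 := dist_eq_one_iff_adj.2 hbb'.symm
        have c2 : G.dist w b' = G.dist u b' + 1 := by
          rcases F1 hG h b' with h1 | h1 <;> omega
        have c3 := ih (G.dist u b') (by omega) b' rfl c2
        rcases F1 hG hbb' a with h1 | h1
        · omega
        · exfalso
          -- `b` is closer to `a` than `b'`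
          by_cases hb'u : b' = u
          · subst hb'u
            have e := F3 hG h hbb'.symm ha h1
            subst e
            rw [dist_self] at hb
            omega
          · obtain ⟨b'', hb'', hcl'⟩ := exists_closer hG hb'u
            have d1 : G.dist u b' = G.dist u b'' + 1 := by
              rw [G.dist_comm (u := u) (v := b'), G.dist_comm (u := u) (v := b'')]; exact hcl'
            have tri' : G.dist w b' ≤ G.dist w b'' + G.dist b'' b' := hG.connected.dist_triangle
            have hd2 : G.dist b'' b' = 1 := dist_eq_one_iff_adj.2 hb''.symm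
            have d2 : G.dist w b'' = G.dist u b'' + 1 := by
              rcases F1 hG h b'' with h2 | h2 <;> omega
            have d3 := ih (G.dist u b'') (by omega) b'' rfl d2
            have e := F3 hG hb'' hbb'.symm (by omega) h1
            subst e
            omega
  have := main _ b rfl hb
  rw [G.dist_comm (u := a) (v := b), G.dist_comm (u := a) (v := w), this]

end Pool.Agent.R46.TreeMetric
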